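import Pool.Agent.Run7.h432.EP.Few2

set_option autoImplicit false

/-!
# All but `O(log X)` directions of integer forms in `ξ` and powers of `e` have complex digits

The linear complexity `N_b(y; L)` of the first `L` digits of `y` in base `b` is the least order of a
linear recurrence over `ℚ` satisfied by these digits. A number `y` is *small at the scale `Y`* if
`N_b(y; L) log b < κ Y - C log b` for some base `b` and some `L` with `L log b ≥ Y`. Let `k_1, …, k_n` be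
distinct nonzero integers and `ξ` any real number, for example `π`. A vector `v ≠ 0` of `ℤ ^ (n + 1)` with
entries at most `e ^ (δ Y)` is *small at the scale `Y`* if the form
`v_0 ξ + v_1 e ^ k_1 + … + v_n e ^ k_n` is. Let `Λ > 1` and `(n (1 + Λ) + Λ) (κ + δ) + κ < 1`; so `Λ` may be
arbitrarily large if `κ` and `δ` are small. There is `C`, which does not depend on `ξ`, such that

(1) the vectors which are small at some scale `Y ≤ X` lie on at most `log X / log Λ + 1` lines;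

(2) the numbers `1, ξ, e ^ k_1, …, e ^ k_n` are linearly dependent over `ℚ` if and only if for all large
`X` some vector is small at some scale of the window `[X, Λ X]`.
-/

namespace Pool.Agent.Results.MP_58e087_nt.FewDirections

open Finset Run7.h432.EP

/-- the `i`-th digit of `x` after the point in base `b` -/
noncomputable def digit (b : ℕ) (x : ℝ) (i : ℕ) : ℤ := ⌊x * (b : ℝ) ^ i⌋ % (b : ℤ)

/-- The terms `s_1, …, s_L` satisfy the linear recurrence
`s_(i+m) = c_0 s_i + … + c_(m-1) s_(i+m-1)` for `1 ≤ i ≤ L - m`. -/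
def Recurrence (s : ℕ → ℤ) (c : ℕ → ℚ) (L m : ℕ) : Prop :=
  ∀ i : ℕ, 1 ≤ i → i + m ≤ L → (s (i + m) : ℚ) = ∑ j ∈ range m, c j * (s (i + j) : ℚ)

/-- the linear complexity of the first `L` digits of `x` in base `b` -/
noncomputable def complexity (b : ℕ) (x : ℝ) (L : ℕ) : ℕ :=
  sInf {m | ∃ c : ℕ → ℚ, Recurrence (digit b x) c L m}

/-- `N_b(y; L) log b < κ X - C log b` for some base `b` and some `L` with `L log b ≥ X` -/
def Small (κ C X y : ℝ) : Prop :=
  ∃ b L : ℕ, 2 ≤ b ∧ X ≤ L * Real.log b ∧ complexity b y L * Real.log b < κ * X - C * Real.log b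

theorem recurrence (b : ℕ) (x : ℝ) (L : ℕ) :
    ∃ c : ℕ → ℚ, Recurrence (digit b x) c L (complexity b x L) := by
  have h : L ∈ {m | ∃ c : ℕ → ℚ, Recurrence (digit b x) c L m} := by
    refine ⟨fun _ => 0, fun i h1 h2 => ?_⟩
    omega
  exact Nat.sInf_mem ⟨L, h⟩

theorem smallR {κ C X y : ℝ} (h : Small κ C X y) : SmallR κ C X y := by
  obtain ⟨b, L, hb, hX, h⟩ := h
  refine ⟨b, L, complexity b y L, hb, hX, ?_, h⟩
  obtain ⟨c, hc⟩ := recurrence b y L
  refine ⟨c, fun i hi => ?_⟩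
  have h := hc (i + 1) (by omega) (by omega)
  have e1 : ∀ j, i + 1 + j = i + j + 1 := fun j => by ring
  simp only [e1] at h
  exact h

/-- small complexities of integers -/
theorem small_int {κ C : ℝ} (hκ : 0 < κ) (hC : 0 ≤ C) (a : ℤ) :
    ∃ X₀ : ℝ, ∀ X : ℝ, X₀ ≤ X → Small κ C X a := by
  refine ⟨C * Real.log 2 / κ + 1, fun X hX => ?_⟩
  have hl : 0 < Real.log 2 := Real.log_pos (by norm_num)
  obtain ⟨L, hL⟩ := exists_nat_ge (X / Real.log 2)
  refine ⟨2, L, le_rfl, ?_, ?_⟩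
  · push_cast
    rwa [div_le_iff₀ hl] at hL
  · have h0 : complexity 2 (a : ℝ) L = 0 := by
      refine Nat.le_zero.1 (Nat.sInf_le ⟨fun _ => 0, fun i hi _ => ?_⟩)
      rw [range_zero, sum_empty]
      have h1 : digit 2 (a : ℝ) (i + 0) = 0 := by
        unfold digit
        have h2 : (a : ℝ) * ((2 : ℕ) : ℝ) ^ (i + 0) = ((a * 2 ^ i : ℤ) : ℝ) := by
          push_cast
          rw [add_zero]
        rw [h2, Int.floor_intCast]
        obtain ⟨k, rfl⟩ : ∃ k, i = k + 1 := ⟨i - 1, by omega⟩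
        push_cast
        rw [pow_succ, ← mul_assoc]
        exact Int.mul_emod_left _ _
      rw [h1]
      simp
    rw [h0]
    push_cast
    rw [zero_mul]
    have h3 : κ * (C * Real.log 2 / κ + 1) ≤ κ * X := mul_le_mul_of_nonneg_left hX hκ.le
    have h4 : κ * (C * Real.log 2 / κ + 1) = C * Real.log 2 + κ := by
      field_simp
    linarith

/-- the vector `v` is nonzero, of height at most `e ^ (δ Y)`, and its form is small at the scale `Y` -/
def SmallVector {n : ℕ} (k : Fin n → ℤ) (ξ κ δ C Y : ℝ) (v : Fin (n + 1) → ℤ) : Prop :=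
  v ≠ 0 ∧ (∀ i, |(v i : ℝ)| ≤ Real.exp (δ * Y)) ∧
    Small κ C Y (v 0 * ξ + ∑ i : Fin n, (v i.succ : ℝ) * Real.exp (k i))

theorem result (n : ℕ) (hn : 1 ≤ n) (k : Fin n → ℤ) (hk : Function.Injective k)
    (hk0 : ∀ i, k i ≠ 0) (κ δ Λ : ℝ) (hκ : 0 < κ) (hδ : 0 < δ) (hΛ : 1 < Λ)
    (h : ((n : ℝ) * (1 + Λ) + Λ) * (κ + δ) + κ < 1) : ∃ C : ℝ, ∀ ξ : ℝ,
      (∀ X : ℝ, 1 ≤ X → ∀ (m : ℕ) (v : Fin m → Fin (n + 1) → ℤ),
        (∀ i j, i ≠ j → ∃ a b, v i a * v j b ≠ v i b * v j a) →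
        (∀ i, ∃ Y : ℝ, 0 ≤ Y ∧ Y ≤ X ∧ SmallVector k ξ κ δ C Y (v i)) →
        (m : ℝ) ≤ Real.log X / Real.log Λ + 1) ∧
      ((∃ v : Fin (n + 1) → ℤ, v ≠ 0 ∧ ∃ G : ℤ,
          v 0 * ξ + ∑ i : Fin n, (v i.succ : ℝ) * Real.exp (k i) = G) ↔
        ∃ X₀ : ℝ, ∀ X : ℝ, X₀ ≤ X → ∃ Y : ℝ, X ≤ Y ∧ Y ≤ Λ * X ∧
          ∃ v, SmallVector k ξ κ δ C Y v) := by
  have hnR : (1 : ℝ) ≤ n := by exact_mod_cast hn
  set m₀ : ℝ := (n : ℝ) * (1 + Λ) + Λ + 1 with hm₀
  have hm0 : 0 < m₀ := by positivity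
  set s := 1 - (((n : ℝ) * (1 + Λ) + Λ) * (κ + δ) + κ) with hs
  have hs0 : 0 < s := by linarith
  set κ' := κ + s / (2 * m₀) with hκ'
  have hκκ' : κ < κ' := by
    have : 0 < s / (2 * m₀) := by positivity
    linarith
  have h' : ((n : ℝ) * (1 + Λ) + Λ) * (κ' + δ) + κ' < 1 := by
    have e1 : m₀ * (s / (2 * m₀)) = s / 2 := by field_simp
    have e2 : ((n : ℝ) * (1 + Λ) + Λ) * (κ' + δ) + κ' =
        ((n : ℝ) * (1 + Λ) + Λ) * (κ + δ) + κ + m₀ * (s / (2 * m₀)) := by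
      rw [hκ', hm₀]
      ring
    rw [e2, e1]
    linarith
  obtain ⟨C₁, hC₁, h1⟩ := app_of_small hκ hκκ'
  obtain ⟨X₀, hX₀, hne, hpar⟩ := form_ne hn k hk hk0 (by linarith : 0 ≤ κ') hδ.le hΛ.le h'
  have hl : 0 < Real.log 2 := Real.log_pos (by norm_num)
  have hCle : C₁ ≤ C₁ + κ * X₀ / Real.log 2 := by
    have : 0 ≤ κ * X₀ / Real.log 2 := by positivity
    linarith
  refine ⟨C₁ + κ * X₀ / Real.log 2, fun ξ => ⟨?_, ?_, ?_⟩⟩
  · intro X hX m v hv hvS
    choose Y hY0 hYX hS using hvS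
    -- the scales are at least `X₀`
    have hYX₀ : ∀ i, X₀ ≤ Y i := by
      intro i
      by_contra hlt
      rw [not_le] at hlt
      obtain ⟨-, -, b, L, hb, -, h3⟩ := hS i
      have hbR : (2 : ℝ) ≤ b := by exact_mod_cast hb
      have h4 : Real.log 2 ≤ Real.log b := Real.log_le_log (by norm_num) hbR
      have h5 : κ * X₀ / Real.log 2 * Real.log 2 ≤ κ * X₀ / Real.log 2 * Real.log b :=
        mul_le_mul_of_nonneg_left h4 (by positivity)
      rw [div_mul_cancel₀ _ hl.ne'] at h5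
      have h6 : 0 ≤ C₁ * Real.log b := by positivity
      have h7 : κ * Y i < κ * X₀ := mul_lt_mul_of_pos_left hlt hκ
      have h8 : (0 : ℝ) ≤ complexity b
          (v i 0 * ξ + ∑ j : Fin n, (v i j.succ : ℝ) * Real.exp (k j)) L * Real.log b := by
        positivity
      rw [add_mul] at h3
      linarith
    refine card_scales hΛ Y (fun i => hX₀.trans (hYX₀ i)) hYX ?_ hX
    intro i j hij hle
    by_contra hcon
    rw [not_lt] at hcon
    obtain ⟨a, b, hab⟩ := hv i j hij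
    exact hab (hpar (Y i) (Y j) (hYX₀ i) hle hcon ξ (v i) (v j) (hS i).1 (hS j).1 (hS i).2.1
      (hS j).2.1 (h1 _ _ _ hCle (smallR (hS i).2.2)) (h1 _ _ _ hCle (smallR (hS j).2.2)) a b)
  · rintro ⟨v, hv, G, hG⟩
    obtain ⟨X₁, hX₁⟩ := small_int hκ (hC₁.trans hCle) G
    refine ⟨max (max X₁ 0) ((∑ i, |(v i : ℝ)|) / δ), fun X hX => ⟨X, le_rfl, ?_, v, hv, ?_, ?_⟩⟩
    · have h0 : 0 ≤ X := (le_max_right _ _).trans ((le_max_left _ _).trans hX)
      nlinarith
    · intro i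
      have h2 : (∑ i, |(v i : ℝ)|) / δ ≤ X := (le_max_right _ _).trans hX
      rw [div_le_iff₀ hδ] at h2
      have h3 := Real.add_one_le_exp (δ * X)
      have h4 : |(v i : ℝ)| ≤ ∑ i, |(v i : ℝ)| :=
        single_le_sum (f := fun i => |(v i : ℝ)|) (fun j _ => abs_nonneg _) (mem_univ i)
      linarith
    · rw [hG]
      exact hX₁ X ((le_max_left _ _).trans ((le_max_left _ _).trans hX))
  · rintro ⟨X₁, hX₁⟩
    exact windows hn k hk hk0 (by linarith : 0 ≤ κ') hδ.le hΛ.le h' ξ X₁ (fun X hX => by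
      obtain ⟨Y, hY1, hY2, v, hv0, hvY, hvS⟩ := hX₁ X hX
      exact ⟨Y, hY1, hY2, v, hv0, hvY, h1 _ _ _ hCle (smallR hvS)⟩)

end Pool.Agent.Results.MP_58e087_nt.FewDirections
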