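import Mathlib
import Pool.Agent.Run7.h683.MR.T

set_option autoImplicit false

/-!
# MP_58e087_nt: the expansions of all forms `c π + d e` in random mixed radices

Question Q1 asks whether `1, e, π` are linearly independent over `ℚ`. We look at the expansions of the numbers
`c π + d e`, and more generally of all integral forms `∑ f_i y_i` in given real numbers `y_1, …, y_s`, in a mixed radix:
the place values are `1 / (p_0 p_1 ⋯ p_n)`, where `p_k` are independent random primes, `p_k` uniformly distributed on the
primes up to `(k + 2) ^ θ`, `θ > 1`. The tail of the expansion of `y` after the place `n` is the fractional part of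
`p_0 ⋯ p_(n-1) y`.

(1) For arbitrary real numbers `y_i`, almost surely, for all large `N`, all tuples of forms (of height `≤ H`) which are
linearly independent modulo the exceptional space `V_N` are jointly equidistributed up to the place `N`, with all word
lengths `L`, up to `ε`. The space `V_N` is deterministic, it does not depend on the radix: it is the subspace of `ℚ^s`
spanned by the integral forms with coefficients at most `exp (N ^ a)` whose value is closer than `exp (- N ^ b)` to an
integer, `0 < a < b < 1`. These forms must be left out: a form with such an extremely small value is close to a rational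
number, and if the form is equal to a rational number with a small denominator, its expansion is not equidistributed.

(2) If some of the numbers are algebraic over `ℚ(e)` (or over `ℚ(π)`) and independent together with `1`, then for all large
`N` the space `V_N` contains no nonzero form in these numbers alone, so its dimension is at most the number of the other
numbers.

(3) For the pair `π, e` there remains at most ONE exceptional line of forms `g π + h e`, and `g, h` are both nonzero:
at every large place `N` either `(π, e)` is jointly equidistributed, or all the forms `c π + d e` outside one line are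
equidistributed. If `1, e, π` are linearly dependent over `ℚ`, the exceptional line is the one of the relation.

Proof. (1) The second moment of the exponential sums of one number `y` up to the place `N` is small unless `y` is very close
to a rational number with a denominator `≤ exp (N ^ a)` (bilinear sums over the last two primes, and a descent; see
MP_5b6025_nt.RandomMixedRadix). (2) A nonzero vector of `V_N` in the coordinates of the numbers over `ℚ(e)` is a combination
of very small forms; by Siegel's lemma there is such a combination with integral coefficients `≤ exp (C N ^ a)`; its value is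
extremely small, against the transcendence measure of `e`.
-/

namespace Pool.Agent.Results.MP_58e087_nt.OneExceptionalLine

open Filter Topology MeasureTheory ProbabilityTheory

/-- the primes up to `(k + 2) ^ θ` -/
noncomputable def primes (θ : ℝ) (k : ℕ) : Finset ℕ := Nat.primesLE ⌊((k : ℝ) + 2) ^ θ⌋₊

/-- `p 0, p 1, …` are independent random primes, `p k` is uniformly distributed on the primes up to `(k + 2) ^ θ` -/
structure RandomPrimes (θ : ℝ) {Ω : Type} [MeasurableSpace Ω] (P : Measure Ω) (p : ℕ → Ω → ℕ) : Prop where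
  mem : ∀ k ω, p k ω ∈ primes θ k
  indep : iIndepFun p P
  uniform : ∀ k, ∀ q ∈ primes θ k, P.real {ω | p k ω = q} = 1 / ((primes θ k).card : ℝ)

/-- the product `p 0 ⋯ p (n - 1)` -/
def prod (p : ℕ → ℕ) (n : ℕ) : ℕ := ∏ k ∈ Finset.range n, p k

/-- the numbers `x i` are jointly equidistributed in the mixed radix `p` up to the place `N`, with words of length `L`
and up to the error `ε`: for all boxes the number of the places `n < N`, such that the fractional parts of
`p 0 ⋯ p (n + l - 1) * x i`, `l < L`, are in the box, is equal to the volume of the box times `N` up to `ε N` -/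
def Equi (p : ℕ → ℕ) {m : ℕ} (x : Fin m → ℝ) (L N : ℕ) (ε : ℝ) : Prop :=
  ∀ u w : Fin L → Fin m → ℝ, (∀ l i, 0 ≤ u l i ∧ u l i ≤ w l i ∧ w l i ≤ 1) →
    |(((Finset.range N).filter fun n => ∀ l i, u l i ≤ Int.fract ((prod p (n + (l : ℕ)) : ℝ) * x i) ∧
      Int.fract ((prod p (n + (l : ℕ)) : ℝ) * x i) < w l i).card : ℝ) - (∏ l, ∏ i, (w l i - u l i)) * N| ≤ ε * N

/-- the distance of `t` to the nearest integer -/
noncomputable def dist (t : ℝ) : ℝ := |t - round t|

/-- the exceptional space of the numbers `y i` at the place `N`: the subspace of `ℚ ^ s` spanned by the integral vectors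
with coefficients `≤ exp (N ^ a)` for which the value of the form is closer than `exp (- N ^ b)` to an integer -/
def Exceptional (a b : ℝ) {s : ℕ} (y : Fin s → ℝ) (N : ℕ) : Submodule ℚ (Fin s → ℚ) :=
  Submodule.span ℚ {q | ∃ h : Fin s → ℤ, (∀ i, |(h i : ℝ)| ≤ Real.exp ((N : ℝ) ^ a)) ∧
    dist (∑ i, (h i : ℝ) * y i) < Real.exp (-(N : ℝ) ^ b) ∧ q = fun i => (h i : ℚ)}

/-- all the tuples of integral forms of height `≤ H`, which are linearly independent modulo the exceptional space, are
jointly equidistributed up to `N`, for all `m, L, H, ε` and all large `N` -/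
def EquiOutside (a b : ℝ) (p : ℕ → ℕ) {s : ℕ} (y : Fin s → ℝ) : Prop :=
  ∀ (m L H : ℕ) (ε : ℝ), 0 < ε → ∀ᶠ N : ℕ in atTop, ∀ f : Fin m → Fin s → ℤ, (∀ j i, |f j i| ≤ H) →
    (∀ c : Fin m → ℤ, c ≠ 0 → (fun i => ((∑ j, c j * f j i : ℤ) : ℚ)) ∉ Exceptional a b y N) →
      Equi p (fun j => ∑ i, (f j i : ℝ) * y i) L N ε

/-- the numbers `x i` and `1` are linearly independent over `ℚ` -/
def Independent {r : ℕ} (x : Fin r → ℝ) : Prop :=
  ∀ (m : ℤ) (g : Fin r → ℤ), (m : ℝ) + ∑ i, (g i : ℝ) * x i = 0 → g = 0

open Run7.h683.MR in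
/-- In almost all the mixed radices of random primes all integral forms outside a small exceptional space are jointly
equidistributed; for the forms `c π + d e` there is at most one exceptional line at every place. -/
theorem result (θ : ℝ) (hθ : 1 < θ) :
    ∃ a b : ℝ, 0 < a ∧ a < b ∧ b < 1 ∧
      -- (1) the forms in arbitrary real numbers
      (∀ (Ω : Type) [MeasurableSpace Ω] (P : Measure Ω) [IsProbabilityMeasure P] (p : ℕ → Ω → ℕ),
        RandomPrimes θ P p → ∀ (s : ℕ) (y : Fin s → ℝ), ∀ᵐ ω ∂P, EquiOutside a b (fun k => p k ω) y) ∧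
      -- such random primes exist
      (∃ (Ω : Type) (_ : MeasurableSpace Ω) (P : Measure Ω) (_ : IsProbabilityMeasure P) (p : ℕ → Ω → ℕ),
        RandomPrimes θ P p) ∧
      -- (2) the exceptional space contains no nonzero form in numbers algebraic over `ℚ(e)` or over `ℚ(π)`
      (∀ z : ℝ, (z = Real.exp 1 ∨ z = Real.pi) → ∀ (s r : ℕ) (y : Fin s → ℝ) (e : Fin r → Fin s),
        Function.Injective e → (∀ j, IsAlgebraic (Algebra.adjoin ℤ ({z} : Set ℝ)) (y (e j))) →
          Independent (fun j => y (e j)) → ∀ᶠ N : ℕ in atTop,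
            (∀ q ∈ Exceptional a b y N, (∀ i, i ∉ Set.range e → q i = 0) → q = 0) ∧
            Module.finrank ℚ (Exceptional a b y N) + r ≤ s) ∧
      -- (3) one sequence of primes for `π` and `e`: at most one exceptional line at every place
      ∃ p : ℕ → ℕ, (∀ k, (p k).Prime ∧ (p k : ℝ) ≤ ((k : ℝ) + 2) ^ θ) ∧
        ∀ (L H : ℕ) (ε : ℝ), 0 < ε → ∀ᶠ N : ℕ in atTop,
          Equi p ![Real.pi, Real.exp 1] L N ε ∨
          ∃ g h : ℤ, g ≠ 0 ∧ h ≠ 0 ∧ |(g : ℝ)| ≤ Real.exp ((N : ℝ) ^ a) ∧ |(h : ℝ)| ≤ Real.exp ((N : ℝ) ^ a) ∧
            dist (g * Real.pi + h * Real.exp 1) < Real.exp (-(N : ℝ) ^ b) ∧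
            ∀ c d : ℤ, |c| ≤ H → |d| ≤ H → c * h ≠ d * g →
              Equi p (fun _ : Fin 1 => c * Real.pi + d * Real.exp 1) L N ε := by
  obtain ⟨a, b, ha, hab, hb, h⟩ := structure_ae.{0} (growth θ hθ)
  have hU : ∀ {Ω : Type} [MeasurableSpace Ω] {P : Measure Ω} [IsProbabilityMeasure P] {p : ℕ → Ω → ℕ},
      RandomPrimes θ P p → Uniform P (Sk θ) p :=
    fun hp => uniform_of_indep hp.mem hp.indep hp.uniform
  have h2 : ∀ (Ω : Type) [MeasurableSpace Ω] (P : Measure Ω) [IsProbabilityMeasure P] (p : ℕ → Ω → ℕ),
      RandomPrimes θ P p → ∀ (s : ℕ) (y : Fin s → ℝ), ∀ᵐ ω ∂P, EquiOutside a b (fun k => p k ω) y := by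
    intro Ω _ P _ p hp s y
    exact h Ω P p (hU hp) s y
  have h4 : ∃ (Ω : Type) (_ : MeasurableSpace Ω) (P : Measure Ω) (_ : IsProbabilityMeasure P) (p : ℕ → Ω → ℕ),
        RandomPrimes θ P p := by
    obtain ⟨Ω, i1, P, i2, p, h5, h6, h7⟩ := exists_uniform (Sk θ) (growth θ hθ).ne
    exact ⟨Ω, i1, P, i2, p, ⟨h5, h6, h7⟩⟩
  refine ⟨a, b, ha, hab, hb, h2, h4, ?_, ?_⟩
  · intro z hz s r y e he halg hind
    have hz' : Run7.h683.AB.MT z := Run7.h683.AB.mt_cases (by
      rcases hz with hz | hz
      · exact Or.inl hz
      · exact Or.inr (Or.inl hz))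
    filter_upwards [exc_inter ha hab y e he (Run7.h683.AB.meas_alg hz' (fun j => y (e j)) halg hind)] with N hN
    exact ⟨hN, finrank_exc' _ e he hN⟩
  obtain ⟨Ω, i1, P, i2, p, hp⟩ := h4
  obtain ⟨ω, hω⟩ := (h2 Ω P p hp 2 ![Real.pi, Real.exp 1]).exists
  refine ⟨fun k => p k ω, fun k => ?_, fun L H ε hε => ?_⟩
  · have h5 := hp.mem k ω
    unfold primes at h5
    rw [Nat.mem_primesLE] at h5
    refine ⟨h5.2, ?_⟩
    exact (Nat.le_floor_iff (by positivity)).1 h5.1
  · have hsum : ∀ c : Fin 2 → ℤ, ∑ i, (c i : ℝ) * (![Real.pi, Real.exp 1] : Fin 2 → ℝ) i =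
        c 0 * Real.pi + c 1 * Real.exp 1 := by
      intro c
      rw [Fin.sum_univ_two]
      rfl
    filter_upwards [hω 2 L 1 ε hε, hω 1 L H ε hε,
      exc_pair ha hab (Run7.h683.AB.mt_cases (Or.inr (Or.inl rfl))) (Run7.h683.AB.mt_cases (Or.inl rfl))] with N g2 g1 g0
    by_cases hE : ∃ h : Fin 2 → ℤ, h ≠ 0 ∧ (∀ i, |(h i : ℝ)| ≤ Real.exp ((N : ℝ) ^ a)) ∧
      dist (∑ i, (h i : ℝ) * (![Real.pi, Real.exp 1] : Fin 2 → ℝ) i) < Real.exp (-(N : ℝ) ^ b)
    · right
      obtain ⟨g, hg0, hgX, hgd⟩ := hE
      obtain ⟨q, hq⟩ : ∃ q : Fin 2 → ℚ, q = fun i => (g i : ℚ) := ⟨_, rfl⟩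
      have hqE : q ∈ Exceptional a b ![Real.pi, Real.exp 1] N :=
        Submodule.subset_span ⟨g, hgX, hgd, hq⟩
      have hq0 : q ≠ 0 := by
        intro h5
        apply hg0
        funext i
        have h6 : (g i : ℚ) = 0 := by
          have h7 := congrFun h5 i
          rw [hq] at h7
          exact h7
        exact_mod_cast h6
      obtain ⟨k0, k1, k2⟩ := g0 q hqE hq0
      refine ⟨g 0, g 1, ?_, ?_, hgX 0, hgX 1, ?_, fun c d hc hd hcd => ?_⟩
      · intro h5
        apply k0
        rw [hq]
        show (g 0 : ℚ) = 0
        rw [h5]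
        rfl
      · intro h5
        apply k1
        rw [hq]
        show (g 1 : ℚ) = 0
        rw [h5]
        rfl
      · rw [hsum] at hgd
        exact hgd
      · have h5 := g1 (fun _ => ![c, d]) (fun j i => by
          fin_cases i
          · exact hc
          · exact hd) (fun c' hc' hmem => by
          have h6 := k2 _ hmem
          rw [hq] at h6
          simp only [Fin.sum_univ_one, Matrix.cons_val_zero, Matrix.cons_val_one] at h6
          have h8 : c' 0 * (c * g 1 - d * g 0) = 0 := by
            have h9 : c' 0 * c * g 1 = c' 0 * d * g 0 := by exact_mod_cast h6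
            linear_combination h9
          have h9 : c' 0 = 0 := (mul_eq_zero.1 h8).resolve_right (sub_ne_zero.2 hcd)
          apply hc'
          funext j
          rw [Subsingleton.elim j 0, h9]
          rfl)
        have h6 : (fun j : Fin 1 => ∑ i, (((![c, d] : Fin 2 → ℤ) i : ℤ) : ℝ) *
            (![Real.pi, Real.exp 1] : Fin 2 → ℝ) i) =
            fun _ : Fin 1 => (c : ℝ) * Real.pi + d * Real.exp 1 := by
          funext j
          rw [hsum (![c, d])]
          rfl
        rw [h6] at h5
        exact h5
    · left
      have hbot : Exceptional a b ![Real.pi, Real.exp 1] N = ⊥ := by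
        unfold Exceptional
        rw [Submodule.span_eq_bot]
        rintro q ⟨h, hX, hd, rfl⟩
        by_contra h5
        refine hE ⟨h, ?_, hX, hd⟩
        rintro rfl
        apply h5
        funext i
        rfl
      have h5 := g2 (fun j i => if i = j then 1 else 0) (fun j i => by split_ifs <;> simp) (fun c hc hmem => by
        rw [hbot, Submodule.mem_bot] at hmem
        apply hc
        have h6 := congrFun hmem 0
        have h7 := congrFun hmem 1
        simp only [Fin.sum_univ_two, Pi.zero_apply] at h6 h7
        simp at h6 h7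
        funext j
        fin_cases j
        · exact h6
        · exact h7)
      have h6 : (fun j : Fin 2 => ∑ i, (((if i = j then (1 : ℤ) else 0 : ℤ)) : ℝ) *
          (![Real.pi, Real.exp 1] : Fin 2 → ℝ) i) = ![Real.pi, Real.exp 1] := by
        funext j
        rw [hsum (fun i => if i = j then 1 else 0)]
        fin_cases j <;> simp
      rw [h6] at h5
      exact h5

end Pool.Agent.Results.MP_58e087_nt.OneExceptionalLine
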