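import Pool.Agent.Run7.h84.TT.Cx2
import Pool.Agent.Run7.h927.Ray2

/-!
# All linear relations between the numbers `e ^ α π ^ t`

Let `S` be a set of real numbers which is empty or, more generally, ultra-Liouville, and let `K` be the
field of the complex numbers which are algebraic over `ℚ(S)` (for `S = ∅` the field of algebraic
numbers). For a complex number `l` and `α ∈ K`, `t ∈ ℚ` put `E(α, t) = exp (α + t l)`; for
`l = log π` this is `e ^ α π ^ t`. A relation is an element of the group algebra `K[K × ℚ]`, that is a
formal linear combination of pairs, whose value under `(α, t) ↦ E(α, t)` is zero.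

Trichotomy. For every complex `l` one of the following holds.

1. Any three of the numbers `E(α, t)` with distinct `(α, t)` are linearly independent over `K`.
2. Some `E(v)`, `v = (α, t)` with `t ≠ 0`, is in `K`. The ideal of all relations is generated by the
   relations `E(r v) = y_r` with rational `r`; three of the numbers are linearly dependent if and only
   if two of the three pairs differ by a rational multiple of `v`.
3. There is a three-term relation `c₀ E(p₀) + c₁ E(p₁) + c₂ E(p₂) = 0` with non-collinear pairs, and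
   the ideal of all relations, with any number of terms, is the principal ideal generated by it; the
   three-term relations are exactly the products of this one with a constant and a pair.

Consequently, if `a + b e + c π = 0` with integers `a, b, c` which are not all zero, then all linear
relations over `K` between the numbers `e ^ α π ^ t` are known: if `a ≠ 0`, they are the multiples of
`a + b e + c π = 0` in the group algebra; if `a = 0`, they are the consequences of
`e ^ (- r) π ^ r = (- b / c) ^ r`.
-/

set_option autoImplicit false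

namespace Pool.Agent.Results.MP_58e087_nt.RelationTrichotomy

/-- Finitely many elements of `S` always have simultaneous rational approximations closer than the
exponential of minus an arbitrarily large power of the common denominator. -/
def UltraLiouville (S : Set ℝ) : Prop :=
  ∀ T : Finset ℝ, (T : Set ℝ) ⊆ S → ∀ κ : ℕ, ∃ q : ℕ, 2 ≤ q ∧
    ∀ ξ ∈ T, ∃ p : ℤ, |ξ - p / q| ≤ Real.exp (-((q : ℝ) ^ κ))

/-- the field `K` of the complex numbers which are algebraic over `ℚ(S)` -/
noncomputable abbrev K (S : Set ℝ) :
    IntermediateField (IntermediateField.adjoin ℚ (Complex.ofReal '' S)) ℂ :=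
  algebraicClosure (IntermediateField.adjoin ℚ (Complex.ofReal '' S)) ℂ

/-- `E(α, t) = exp (α + t l)` -/
noncomputable def E (S : Set ℝ) (l : ℂ) (p : K S × ℚ) : ℂ := Complex.exp ((p.1 : ℂ) + p.2 * l)

/-- the value of a formal linear combination of pairs -/
noncomputable def value (S : Set ℝ) (l : ℂ) (G : AddMonoidAlgebra (K S) (K S × ℚ)) : ℂ :=
  ∑ p ∈ G.coeff.support, (G.coeff p : ℂ) * E S l p

/-- a nontrivial linear relation over `K` between the numbers `E(p₀)`, `E(p₁)`, `E(p₂)` with distinct
pairs `p₀`, `p₁`, `p₂` -/
def ThreeTerm (S : Set ℝ) (l : ℂ) (c : Fin 3 → K S) (p : Fin 3 → K S × ℚ) : Prop :=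
  c ≠ 0 ∧ Function.Injective p ∧ ∑ i, (c i : ℂ) * E S l (p i) = 0

/-- `p - q` is a rational multiple of `v` -/
def Diff {S : Set ℝ} (v p q : K S × ℚ) : Prop :=
  ∃ r : ℚ, p.1 - q.1 = r * v.1 ∧ p.2 - q.2 = r * v.2

/-- the three pairs are not collinear over `ℚ` -/
def NonCollinear {S : Set ℝ} (p : Fin 3 → K S × ℚ) : Prop :=
  ∀ r s : ℚ, (r : K S) * ((p 1).1 - (p 0).1) + s * ((p 2).1 - (p 0).1) = 0 →
    r * ((p 1).2 - (p 0).2) + s * ((p 2).2 - (p 0).2) = 0 → r = 0 ∧ s = 0

/-- the ideal of relations generated by `E(r v) = y_r`, `r` rational -/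
noncomputable def lineIdeal {S : Set ℝ} (v : K S × ℚ) (y : ℚ → K S) :
    Ideal (AddMonoidAlgebra (K S) (K S × ℚ)) :=
  Ideal.span (Set.range fun r : ℚ => AddMonoidAlgebra.single ((r : K S) * v.1, r * v.2) 1 -
    AddMonoidAlgebra.single 0 (y r))

/-- the first case: no relation with at most three terms -/
def NoThree (S : Set ℝ) (l : ℂ) : Prop := ∀ c p, ¬ ThreeTerm S l c p

/-- the second case: the relations are generated by the values of `E` on the line of `v` -/
def Line (S : Set ℝ) (l : ℂ) (v : K S × ℚ) (y : ℚ → K S) : Prop :=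
  v.2 ≠ 0 ∧ (∀ r : ℚ, (y r : ℂ) = E S l ((r : K S) * v.1, r * v.2)) ∧
    (∀ G, value S l G = 0 ↔ G ∈ lineIdeal v y) ∧
    ∀ p : Fin 3 → K S × ℚ, Function.Injective p →
      ((∃ c, ThreeTerm S l c p) ↔ ∃ i j, i ≠ j ∧ Diff v (p i) (p j))

/-- the third case: the ideal of relations is generated by one three-term relation -/
def Principal (S : Set ℝ) (l : ℂ) (c : Fin 3 → K S) (p : Fin 3 → K S × ℚ) : Prop :=
  ThreeTerm S l c p ∧ (∀ i, c i ≠ 0) ∧ NonCollinear p ∧
    (∀ G, value S l G = 0 ↔ (∑ i, AddMonoidAlgebra.single (p i) (c i)) ∣ G) ∧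
    ∀ c' p', ThreeTerm S l c' p' ↔ ∃ (σ : Equiv.Perm (Fin 3)) (s : K S × ℚ) (μ : K S), μ ≠ 0 ∧
      ∀ i, p' (σ i) = s + p i ∧ c' (σ i) = μ * c i

open Run7.h84.TT in
theorem line_of {S : Set ℝ} (hS : UltraLiouville S) {l : ℂ} {v : K S × ℚ} (hv2 : v.2 ≠ 0)
    {y₁ : K S} (hy₁ : (y₁ : ℂ) = E S l v) : ∃ y : ℚ → K S, Line S l v y := by
  have hS' : Pool.Agent.R347.LW.UltraLiouville S := hS
  have hE := expSys hS' l
  have hva : IsAlgebraic (K S) (EE S l v) := by
    have := mem_alg y₁
    rw [hy₁] at this
    exact this
  choose y hy using fun r : ℚ => alg_mem (alg_smul hE hva r)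
  have hsm : ∀ r : ℚ, (((r : K S) * v.1, r * v.2) : K S × ℚ) = r • v := by
    intro r
    apply Prod.ext
    · rw [Prod.smul_fst, Rat.smul_def]
    · rw [Prod.smul_snd, smul_eq_mul]
  refine ⟨y, hv2, fun r => ?_, fun G => ?_, fun p hp => ?_⟩
  · rw [hsm]
    exact hy r
  · have h1 := caseTwoIdeal hS' hv2 y hy G
    rw [ev_eq hS'] at h1
    have h2 : lineIdeal v y = Ideal.span (Set.range fun r : ℚ =>
      (AddMonoidAlgebra.single (r • v) 1 - AddMonoidAlgebra.single 0 (y r) :
        AddMonoidAlgebra (K S) (K S × ℚ))) := by
      rw [lineIdeal]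
      simp only [hsm]
    rw [h2]
    exact h1
  · exact caseTwo hS' hv2 hy₁ hp

open Run7.h84.TT in
theorem principal_of {S : Set ℝ} (hS : UltraLiouville S) {l : ℂ}
    (hT : ∀ v : K S × ℚ, v ≠ 0 → ¬ IsAlgebraic (K S) (EE S l v)) {c : Fin 3 → K S}
    {p : Fin 3 → K S × ℚ} (h : ThreeTerm S l c p) : Principal S l c p := by
  have hS' : Pool.Agent.R347.LW.UltraLiouville S := hS
  have hE := expSys hS' l
  have hc := all_ne hE hT h.2.1 h.1 h.2.2
  refine ⟨h, hc, ?_, fun G => ?_, fun c' p' => caseThree hS' hT h c' p'⟩
  · intro r s h1 h2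
    refine noncollinear hE hT h.2.1 hc h.2.2 r s ?_
    apply Prod.ext
    · simp only [Prod.fst_add, Prod.smul_fst, Prod.fst_sub, Rat.smul_def, Prod.fst_zero]
      exact h1
    · simp only [Prod.snd_add, Prod.smul_snd, Prod.snd_sub, smul_eq_mul, Prod.snd_zero]
      exact h2
  · have h1 := caseThreeIdeal hS' hT h G
    rw [ev_eq hS'] at h1
    exact h1

open Run7.h84.TT in
theorem result (S : Set ℝ) (hS : UltraLiouville S) :
    (∀ l : ℂ, NoThree S l ∨ (∃ v y, Line S l v y) ∨ ∃ c p, Principal S l c p) ∧
    (∀ (α : K S) (t : ℚ), E S (Real.log Real.pi) (α, t) =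
      Complex.exp α * ((Real.pi ^ (t : ℝ) : ℝ) : ℂ)) ∧
    (∀ a b c : ℤ, ¬ (a = 0 ∧ b = 0 ∧ c = 0) → (a : ℝ) + b * Real.exp 1 + c * Real.pi = 0 →
      (a ≠ 0 → Principal S (Real.log Real.pi) ![(a : K S), (b : K S), (c : K S)]
        ![(0, 0), (1, 0), (0, 1)]) ∧
      (a = 0 → ∃ y : ℚ → K S, y 1 = -((b : K S) / (c : K S)) ∧ Line S (Real.log Real.pi) (-1, 1) y)) := by
  have hS' : Pool.Agent.R347.LW.UltraLiouville S := hS
  have hE2 : ∀ (α : K S) (t : ℚ), E S (Real.log Real.pi) (α, t) =
      Complex.exp α * ((Real.pi ^ (t : ℝ) : ℝ) : ℂ) := by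
    intro α t
    rw [E, Complex.exp_add, Real.rpow_def_of_pos Real.pi_pos, Complex.ofReal_exp]
    congr 2
    push_cast
    ring
  refine ⟨fun l => ?_, hE2, ?_⟩
  · by_cases hT : ∀ v : K S × ℚ, v ≠ 0 → ¬ IsAlgebraic (K S) (EE S l v)
    · by_cases h : NoThree S l
      · exact Or.inl h
      · rw [NoThree] at h
        push Not at h
        obtain ⟨c, p, h⟩ := h
        exact Or.inr (Or.inr ⟨c, p, principal_of hS hT h⟩)
    · obtain ⟨v, hv2, y, hy⟩ := exists_v hS' hT
      obtain ⟨y', hy'⟩ := line_of hS hv2 hy
      exact Or.inr (Or.inl ⟨v, y', hy'⟩)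
  · intro a b c hne e
    set l : ℂ := ((Real.log Real.pi : ℝ) : ℂ) with hl
    have e' : (a : ℂ) + b * Complex.exp 1 + c * (Real.pi : ℂ) = 0 := by
      have h1 : (((a : ℝ) + b * Real.exp 1 + c * Real.pi : ℝ) : ℂ) = 0 := by rw [e]; simp
      push_cast at h1
      exact h1
    have hpi : Complex.exp l = (Real.pi : ℂ) := by
      rw [hl, ← Complex.ofReal_exp, Real.exp_log Real.pi_pos]
    constructor
    · intro ha
      refine principal_of hS ?_ ⟨?_, ?_, ?_⟩
      · by_contra hT
        obtain ⟨v, hv2, y, hy⟩ := exists_v hS' hT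
        have hE := expSys hS' l
        have hva : IsAlgebraic (K S) (EE S l v) := by
          have := mem_alg y
          rw [hy] at this
          exact this
        obtain ⟨ω, hω⟩ := alg_mem (alg_smul hE hva (v.2)⁻¹)
        set κ : K S := -((v.2)⁻¹ • v).1 with hκ
        have hdec : ((0, 1) : K S × ℚ) = ((κ, 0) : K S × ℚ) + (v.2)⁻¹ • v := by
          apply Prod.ext
          · simp [hκ]
          · simp [hv2]
        have hpiω : (Real.pi : ℂ) = Complex.exp κ * ω := by
          have h1 : EE S l ((0, 1) : K S × ℚ) = (Real.pi : ℂ) := by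
            simp [EE, hpi]
          have h2 : EE S l ((κ, 0) : K S × ℚ) = Complex.exp κ := by
            simp [EE]
          rw [← h1, hdec, hE.add, h2, hω]
        have hint : ∀ n : ℤ, (n : ℂ) ∈ K S := fun n => (K S).intCast_mem n
        by_cases hκ0 : (κ : ℂ) = 0
        · apply Run7.h927.Ray.pi_not_alg hS'
          rw [hpiω, hκ0, Complex.exp_zero, one_mul]
          exact Run7.h927.Ray.mem_KS.1 ω.2
        · by_cases hκ1 : (κ : ℂ) = 1
          · have h1 := Run7.h927.Ray.two_terms hS' (a := (a : ℂ)) (b := (b : ℂ) + c * ω) (c := 0)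
              (d := 0) (u := 0) (v := 1) (Run7.h927.Ray.mem_KS.1 (hint a))
              (Run7.h927.Ray.mem_KS.1 ((K S).add_mem (hint b) ((K S).mul_mem (hint c) ω.2)))
              isAlgebraic_zero isAlgebraic_zero isAlgebraic_zero isAlgebraic_one zero_ne_one (by
                rw [hpiω, hκ1] at e'
                rw [Complex.exp_zero]
                linear_combination e')
            exact ha (by exact_mod_cast h1.1)
          · have h1 := Pool.Agent.R347.LW.lw_finset S hS' (Finset.univ : Finset (Fin 3))
              ![(0 : ℂ), 1, (κ : ℂ)] ![(a : ℂ), (b : ℂ), (c : ℂ) * ω]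
              (by
                intro i
                fin_cases i
                · exact (K S).zero_mem
                · exact (K S).one_mem
                · exact κ.2)
              (by
                intro i
                fin_cases i
                · exact hint a
                · exact hint b
                · exact (K S).mul_mem (hint c) ω.2)
              (by
                intro i j hij
                fin_cases i <;> fin_cases j
                · rfl
                · exact absurd (show (0 : ℂ) = 1 from hij) zero_ne_one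
                · exact absurd (show (0 : ℂ) = κ from hij).symm hκ0
                · exact absurd (show (1 : ℂ) = 0 from hij) one_ne_zero
                · rfl
                · exact absurd (show (1 : ℂ) = κ from hij).symm hκ1
                · exact absurd (show (κ : ℂ) = 0 from hij) hκ0
                · exact absurd (show (κ : ℂ) = 1 from hij) hκ1
                · rfl)
              (by
                rw [Fin.sum_univ_three]
                simp only [Matrix.cons_val_zero, Matrix.cons_val_one, Matrix.cons_val]
                rw [Complex.exp_zero]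
                rw [hpiω] at e'
                linear_combination e')
              0 (Finset.mem_univ _)
            have h2 : (a : ℂ) = 0 := h1
            exact ha (by exact_mod_cast h2)
      · intro h0
        have h1 := congrFun h0 0
        have h2 : (a : K S) = 0 := h1
        exact ha (by exact_mod_cast h2)
      · intro i j hij
        fin_cases i <;> fin_cases j <;> simp_all
      · rw [Fin.sum_univ_three]
        simp only [Matrix.cons_val_zero, Matrix.cons_val_one, Matrix.cons_val, E]
        simp only [ZeroMemClass.coe_zero, OneMemClass.coe_one, Rat.cast_zero, Rat.cast_one, zero_mul,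
          one_mul, add_zero, zero_add, Complex.exp_zero, hpi]
        push_cast
        linear_combination e'
    · intro ha
      have hc : c ≠ 0 := by
        intro hc
        apply hne
        refine ⟨ha, ?_, hc⟩
        rw [ha, hc] at e
        have h1 : (b : ℝ) * Real.exp 1 = 0 := by simpa using e
        exact_mod_cast (mul_eq_zero.1 h1).resolve_right (Real.exp_pos 1).ne'
      have hcC : (c : ℂ) ≠ 0 := by exact_mod_cast hc
      have h1 : ((-((b : K S) / (c : K S)) : K S) : ℂ) = E S l ((-1, 1) : K S × ℚ) := by
        rw [E]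
        push_cast
        rw [one_mul, Complex.exp_add, hpi, Complex.exp_neg]
        have h2 := Complex.exp_ne_zero 1
        field_simp
        rw [ha] at e'
        push_cast at e'
        linear_combination -e'
      obtain ⟨y, hy⟩ := line_of hS (by norm_num) h1
      refine ⟨y, ?_, hy⟩
      apply Subtype.ext
      rw [hy.2.1 1, h1]
      simp

end Pool.Agent.Results.MP_58e087_nt.RelationTrichotomy
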