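import Mathlib
import Pool.Agent.Run7.h360.CF.Poly

/-!
# Linear forms and polynomials in `e` and `π` with simple values

Question Q1 asks if `1, e, π` are linearly independent over the rational numbers.  We compare, at every
scale, the descriptions of all numbers `(a e + b π + c) / m` with integers `a, b, c, m`, and more generally of
the values `P(e, π)` of the integral polynomials, uniformly in their heights.

Let `y = [a_0; a_1, a_2, …]` be the regular continued fraction of a real number, `q_i` the denominators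
of its convergents.  The places `u+1, …, v` are *copied at the price `N`* if, with the exception of
places up to some `s` with `q_s ≤ e^N q_u`, the partial quotients `a_i` at these places are equal to
the partial quotients `a_{i-d}` for one `d > 0` (`Copied`; the copied part may begin at any earlier
place and may overlap its copy, so that all periodic stretches with a short period are included).  A
number `y` is *simple up to the scale `X` with the parameters `r, K, N`* (`Simple`) if

* after the removal of at most `K` places all stretches of the partial quotients `a_{i+1}` with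
  `q_i ≤ e^X` are copied at the price `N`; or
* for some base `b`, after the removal of at most `K` places all stretches `u+1, …, v ≤ L` of the
  digits, `X ≤ L log b`, are terms of sequences whose power series satisfy modulo `t^(v+1)` an algebraic
  equation of degree `≤ r` with coefficients of degree `≤ k + r u`, `(k+1) log b ≤ N`; or
* the fractional part `z` of `y` satisfies `|P(z)| ≤ e^(-X)` for an integer polynomial `P ≠ 0` of degree
  `≤ r` with coefficients `≤ e^N`.

So `K` is the number of the breaks, `N` the price of the description and `X` the length.  We prove: at every scale `X`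

* there are nonzero integers `p, q` such that `p a + q b = 0` for all integers `|a|, |b| ≤ H` for which some number
  `(a e + b π + c) / m`, `1 ≤ m ≤ H`, `c` any integer, is simple;
* the ℚ-span of the integral polynomials `P(T, U)` of degree `≤ D` and height `≤ H`, for which some number
  `(P(e, π) + c) / m`, `1 ≤ m ≤ H`, `c` any integer, is simple, contains no nonconstant polynomial in `T` alone
  and no nonconstant polynomial in `U` alone.

Here simple means: with `K` breaks and at a price `N` with `A^(K+1) (N + log H + 1) < X`, where `A` depends only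
on `D` and `r`.  If `a e + b π + c = 0` is a relation then `p a + q b = 0` for all `X` which are greater than
`A (log H + 1)`, and if `P(e, π) = 0` then `P` is in the ℚ-span at all these scales; the independence of
`1, e, π` and of `e, π` means that there are no such `(a, b)` and `P` besides `0`.  At a given scale, however, all
numbers which are (up to this scale) rational, algebraic, periodic in a base or as a continued fraction, or
pieced together from few such parts, are taken into account, and all of these are on one line and in one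
small space of polynomials.

Proof.  A copy at the places `s+1, …, v` of the continued fraction gives the quadratic polynomial
`(q_{r-1} X - p_{r-1}) (q_s X - p_s) - (q_{s-1} X - p_{s-1}) (q_r X - p_r)`, whose value at `y` is, up to the
sign, not changed by a common letter and so at most `2 / q_v`; its leading coefficient is not zero.  The
breaks of the descriptions divide the interval `[0, X]` of scales into few intervals, and on each of
them all the numbers have integer polynomials with small coefficients and a very small value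
(`Pool.Agent.Run7.h360.CF`).  Möbius images transform these polynomials.  If the span of the simple polynomials contains a
nonconstant polynomial in `T` (or in `U`), then by Cramer's rule few of them satisfy a linear relation over
`ℤ[e]` (or over `ℤ[π]`) with small coefficients; numbers which satisfy a relation over `ℤ[x]` have a joint
measure, uniformly in the relation (helper168, `Run7.h168.Uni.jointH_rel`), which comes from the
transcendence measures of `x = e` and of `x = π`; both are used.  `GrowingForms` and `FewDirections` (helper432)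
on this page treat the digits of linear forms in `1, e, ξ`, `ξ` any real number; the continued fractions, the
polynomials, the approximations and the use of both measures are new.
-/

set_option autoImplicit false

namespace Pool.Agent.Results.MP_58e087_nt.SimpleFormsInEAndPi

open Polynomial

/-- the partial quotient `a_{i+1}` of `y = [a_0; a_1, a_2, …]` (`none` if the continued fraction has ended) -/
noncomputable def letter (y : ℝ) (i : ℕ) : Option ℝ := (GenContFract.of y).partDens.get? i

/-- the denominator `q_i` of `[a_0; a_1, …, a_i]` (the last denominator if the continued fraction has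
ended) -/
noncomputable def den (y : ℝ) (i : ℕ) : ℝ := (GenContFract.of y).dens i

/-- the places `u+1, …, v` are copied at the price `N`: up to the place `s`, `q_s ≤ e^N q_u`, they are
arbitrary, and from then on the partial quotients are equal to those `s - r` places before -/
def Copied (y : ℝ) (N : ℝ) (u v : ℕ) : Prop :=
  ∃ r s, r < s ∧ den y s ≤ Real.exp N * den y u ∧ ∀ i, s ≤ i → i < v → letter y i = letter y (i - (s - r))

/-- the partial quotients `a_{i+1}` with `q_i ≤ e^X` are copied at the price `N` on all stretches which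
contain none of at most `K` places -/
def Pieces (y : ℝ) (K : ℕ) (N X : ℝ) : Prop :=
  ∃ T : Finset ℕ, T.card ≤ K ∧ ∀ u v, u < v → den y (v - 1) ≤ Real.exp X → (∀ t ∈ T, t ≤ u ∨ v < t) →
    Copied y N u v

/-- the `i`-th digit of `y` after the point in base `b` -/
noncomputable def digit (b : ℕ) (y : ℝ) (i : ℕ) : ℤ := ⌊y * (b : ℝ) ^ i⌋ % (b : ℤ)

/-- the polynomial `s_1 X + s_2 X^2 + ⋯ + s_L X^L` -/
noncomputable def seqPoly (s : ℕ → ℤ) (L : ℕ) : ℚ[X] := ∑ l ∈ Finset.Icc 1 L, C (s l : ℚ) * X ^ l

/-- there is a nonzero polynomial `P(X, Y)` over `ℚ` of degree `≤ r` in `Y` and `≤ k` in `X` such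
that `P(X, S(X))` is divisible by `X^(L+1)`, where `S` is the polynomial of the first `L` terms
of `s` -/
def AlgRelation (s : ℕ → ℤ) (r L k : ℕ) : Prop :=
  ∃ P : ℚ[X][X], P ≠ 0 ∧ P.natDegree ≤ r ∧ (∀ j, (P.coeff j).natDegree ≤ k) ∧
    X ^ (L + 1) ∣ P.eval (seqPoly s L)

/-- the digits of `y` at the places `u+1, …, v` are the terms at these places of a sequence `s` of base `b`
digits, and the first `v` terms of `s` satisfy an algebraic relation of degree `≤ r` with coefficients of
degree `≤ k + r u` -/
def Described (b : ℕ) (y : ℝ) (r k u v : ℕ) : Prop :=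
  ∃ s : ℕ → ℤ, (∀ l, 0 ≤ s l ∧ s l < b) ∧ (∀ l, u < l → l ≤ v → s l = digit b y l) ∧
    AlgRelation s r v (k + r * u)

/-- the first `L` digits of `y` are described on all stretches which contain none of at most `K` places -/
def PieceByPiece (b : ℕ) (y : ℝ) (r K L k : ℕ) : Prop :=
  ∃ T : Finset ℕ, T.card ≤ K ∧
    ∀ u v, u ≤ v → v ≤ L → (∀ t ∈ T, t ≤ u ∨ v < t) → Described b y r k u v

/-- the fractional part of `y` almost satisfies an algebraic equation -/
def NearAlg (r : ℕ) (N X y : ℝ) : Prop :=
  ∃ P : ℤ[X], P ≠ 0 ∧ P.natDegree ≤ r ∧ (∀ i, |((P.coeff i : ℤ) : ℝ)| ≤ Real.exp N) ∧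
    |(aeval (Int.fract y) P : ℝ)| ≤ Real.exp (-X)

/-- `y` is simple up to the scale `X`, with `K` breaks and at the price `N` -/
def Simple (r K : ℕ) (N X y : ℝ) : Prop :=
  Pieces y K N X ∨
    (∃ b k L : ℕ, 2 ≤ b ∧ (k + 1) * Real.log b ≤ N ∧ X ≤ L * Real.log b ∧ PieceByPiece b y r K L k) ∨
    NearAlg r N X y


/-- **(1) Linear forms.** For every `r` there is `A ≥ 1` such that, if `A^(K+1) (N + log H + 1) < X`, `H ≥ 1`, then
there are integers `p ≠ 0`, `q ≠ 0` with `p a + q b = 0` for all integers `|a|, |b| ≤ H` for which some number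
`(a e + b π + c) / m`, `1 ≤ m ≤ H`, `c` any integer, is simple up to `X` with `K` breaks at the price `N`.

**(2) Polynomials.** Let `(x, y)` be `(e, π)` or `(π, e)`.  For all `D`, `r` there is `A ≥ 1` such that, if
`A^(K+1) (N + log H + 1) < X`, `H ≥ 1`, then the ℚ-span of the integral polynomials `P(T_0, T_1)` of degree
`≤ D` with coefficients `≤ H`, for which some number `(P(x, y) + c) / m`, `1 ≤ m ≤ H`, `c` any integer, is
simple up to `X` with `K` breaks at the price `N`, contains no nonconstant polynomial in `T_0` alone. -/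
theorem result :
    (∀ r : ℕ, ∃ A : ℝ, 1 ≤ A ∧ ∀ (H : ℝ) (K : ℕ) (N X : ℝ), 1 ≤ H → 0 ≤ N →
      A ^ (K + 1) * (N + Real.log H + 1) < X →
      ∃ p q : ℤ, p ≠ 0 ∧ q ≠ 0 ∧ ∀ a b c m : ℤ, |(a : ℝ)| ≤ H → |(b : ℝ)| ≤ H → 1 ≤ m → (m : ℝ) ≤ H →
        Simple r K N X ((a * Real.exp 1 + b * Real.pi + c) / m) → p * a + q * b = 0) ∧
    ∀ x y : ℝ, (x = Real.exp 1 ∧ y = Real.pi ∨ x = Real.pi ∧ y = Real.exp 1) →
      ∀ D r : ℕ, ∃ A : ℝ, 1 ≤ A ∧ ∀ (H : ℝ) (K : ℕ) (N X : ℝ), 1 ≤ H → 0 ≤ N →
      A ^ (K + 1) * (N + Real.log H + 1) < X →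
      ∀ Q ∈ Submodule.span ℚ (MvPolynomial.map (Int.castRingHom ℚ) '' {P : MvPolynomial (Fin 2) ℤ |
          P.totalDegree ≤ D ∧ (∀ s, |((P.coeff s : ℤ) : ℝ)| ≤ H) ∧ ∃ c m : ℤ, 1 ≤ m ∧ (m : ℝ) ≤ H ∧
          Simple r K N X ((MvPolynomial.aeval ![x, y] P + c) / m)}),
        (∀ s, Q.coeff s ≠ 0 → s 1 = 0) → ∀ s, s ≠ 0 → Q.coeff s = 0 := by
  have he : Pool.Agent.TH456.TM.MeasT ((Real.exp 1 : ℝ) : ℂ) := Pool.Agent.R473.JC.measT_three _ (Or.inl rfl)
  have hpi : Pool.Agent.TH456.TM.MeasT ((Real.pi : ℝ) : ℂ) :=
    Pool.Agent.R473.JC.measT_three _ (Or.inr (Or.inl rfl))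
  refine ⟨?_, ?_⟩
  · intro r
    obtain ⟨A₁, hA₁, h₁⟩ := Run7.h360.CF.simple_span (Real.exp 1) he 1 1 r
    obtain ⟨A₂, hA₂, h₂⟩ := Run7.h360.CF.simple_span Real.pi hpi 1 1 r
    refine ⟨max A₁ A₂, hA₁.trans (le_max_left _ _), fun H K N X hH hN hX => ?_⟩
    have hlH : 0 ≤ Real.log H := Real.log_nonneg hH
    have hX₁ : A₁ ^ (K + 1) * (N + Real.log H + 1) < X := lt_of_le_of_lt
      (mul_le_mul_of_nonneg_right (pow_le_pow_left₀ (by linarith) (le_max_left _ _) _) (by linarith)) hX
    have hX₂ : A₂ ^ (K + 1) * (N + Real.log H + 1) < X := lt_of_le_of_lt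
      (mul_le_mul_of_nonneg_right (pow_le_pow_left₀ (by linarith) (le_max_right _ _) _) (by linarith)) hX
    -- the simple forms
    obtain ⟨S, hS⟩ : ∃ S : ℤ → ℤ → Prop, S = fun a b : ℤ => |(a : ℝ)| ≤ H ∧ |(b : ℝ)| ≤ H ∧ ∃ c m : ℤ, 1 ≤ m ∧
        (m : ℝ) ≤ H ∧ Simple r K N X ((a * Real.exp 1 + b * Real.pi + c) / m) := ⟨_, rfl⟩
    have g₁ : ∀ a b a' b' : ℤ, S a b → S a' b' → b * a' - b' * a = 0 := by
      intro a b a' b' h h'
      have hm : ∀ a b : ℤ, S a b → Run7.h360.CF.qv (Sum.elim (fun _ => a) (fun _ => b) : Fin 1 ⊕ Fin 1 → ℤ) ∈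
          Submodule.span ℚ (Run7.h360.CF.qv '' {a : Fin 1 ⊕ Fin 1 → ℤ | (∀ i, |(a i : ℝ)| ≤ H) ∧ ∃ c m : ℤ, 1 ≤ m ∧
            (m : ℝ) ≤ H ∧ Simple r K N X ((∑ k : Fin 1, (a (Sum.inl k) : ℝ) * Real.exp 1 ^ ((k : ℕ) + 1) +
              ∑ j : Fin 1, (a (Sum.inr j) : ℝ) * Real.pi + c) / m)}) := by
        intro a b h
        rw [hS] at h
        obtain ⟨ha, hb, c, m, hm1, hm2, hs⟩ := h
        refine Submodule.subset_span ⟨_, ⟨fun i => ?_, c, m, hm1, hm2, ?_⟩, rfl⟩
        · rcases i with i | i
          · exact ha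
          · exact hb
        · simpa using hs
      have h0 := h₁ (fun _ => Real.pi) H K N X hH hN hX₁
        ((b : ℚ) • Run7.h360.CF.qv (Sum.elim (fun _ => a') (fun _ => b') : Fin 1 ⊕ Fin 1 → ℤ) -
          (b' : ℚ) • Run7.h360.CF.qv (Sum.elim (fun _ => a) (fun _ => b) : Fin 1 ⊕ Fin 1 → ℤ))
        (sub_mem (Submodule.smul_mem _ _ (hm a' b' h')) (Submodule.smul_mem _ _ (hm a b h))) (fun j => by
          show (b : ℚ) * (b' : ℚ) - (b' : ℚ) * (b : ℚ) = 0
          ring)
      have h1 : (b : ℚ) * (a' : ℚ) - (b' : ℚ) * (a : ℚ) = 0 := congrFun h0 (Sum.inl 0)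
      exact_mod_cast h1
    have g₂ : ∀ a : ℤ, S a 0 → a = 0 := by
      intro a h
      rw [hS] at h
      obtain ⟨ha, hb, c, m, hm1, hm2, hs⟩ := h
      have h0 := h₁ (fun _ => Real.pi) H K N X hH hN hX₁
        (Run7.h360.CF.qv (Sum.elim (fun _ => a) (fun _ => 0) : Fin 1 ⊕ Fin 1 → ℤ))
        (Submodule.subset_span ⟨_, ⟨fun i => by
          rcases i with i | i
          · exact ha
          · exact hb, c, m, hm1, hm2, by
            have h' : Run7.h360.CF.Simple r K N X ((a * Real.exp 1 + ((0 : ℤ) : ℝ) * Real.pi + c) / m) := hs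
            simpa using h'⟩, rfl⟩) (fun j => by
          show ((0 : ℤ) : ℚ) = 0
          simp)
      have h1 : (a : ℚ) = 0 := congrFun h0 (Sum.inl 0)
      exact_mod_cast h1
    have g₃ : ∀ b : ℤ, S 0 b → b = 0 := by
      intro b h
      rw [hS] at h
      obtain ⟨ha, hb, c, m, hm1, hm2, hs⟩ := h
      have h0 := h₂ (fun _ => Real.exp 1) H K N X hH hN hX₂
        (Run7.h360.CF.qv (Sum.elim (fun _ => b) (fun _ => 0) : Fin 1 ⊕ Fin 1 → ℤ))
        (Submodule.subset_span ⟨_, ⟨fun i => by
          rcases i with i | i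
          · exact hb
          · exact ha, c, m, hm1, hm2, by
            have h' : Run7.h360.CF.Simple r K N X ((((0 : ℤ) : ℝ) * Real.exp 1 + b * Real.pi + c) / m) := hs
            simpa using h'⟩, rfl⟩) (fun j => by
          show ((0 : ℤ) : ℚ) = 0
          simp)
      have h1 : (b : ℚ) = 0 := congrFun h0 (Sum.inl 0)
      exact_mod_cast h1
    by_cases hex : ∃ a b : ℤ, S a b ∧ ¬ (a = 0 ∧ b = 0)
    · obtain ⟨a₀, b₀, h0, hne⟩ := hex
      have ha₀ : a₀ ≠ 0 := by
        rintro rfl
        exact hne ⟨rfl, g₃ _ h0⟩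
      have hb₀ : b₀ ≠ 0 := by
        rintro rfl
        exact hne ⟨g₂ _ h0, rfl⟩
      refine ⟨b₀, -a₀, hb₀, neg_ne_zero.2 ha₀, fun a b c m ha hb hm1 hm2 hs => ?_⟩
      have h1 := g₁ a₀ b₀ a b h0 (by rw [hS]; exact ⟨ha, hb, c, m, hm1, hm2, hs⟩)
      linarith
    · push Not at hex
      refine ⟨1, 1, one_ne_zero, one_ne_zero, fun a b c m ha hb hm1 hm2 hs => ?_⟩
      have h1 := hex a b (by rw [hS]; exact ⟨ha, hb, c, m, hm1, hm2, hs⟩)
      rw [h1.1, h1.2]
      ring
  · intro x y hxy D r
    have hx : Pool.Agent.TH456.TM.MeasT (x : ℂ) := by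
      rcases hxy with ⟨rfl, -⟩ | ⟨rfl, -⟩
      · exact he
      · exact hpi
    obtain ⟨A, hA, h⟩ := Run7.h360.CF.simple_poly x hx 1 D r
    refine ⟨A, hA, fun H K N X hH hN hX Q hQ hQt => ?_⟩
    exact h ![y] H K N X hH hN hX Q hQ (fun s hs j => by
      have h1 := hQt s hs
      have hj : j = 0 := Subsingleton.elim _ _
      subst hj
      exact h1)

end Pool.Agent.Results.MP_58e087_nt.SimpleFormsInEAndPi
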